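import Pool.Agent.W223.AK.Defs

/-! Project AK (helper223), part SU (helper822): `S`-units of bounded height are few. -/

set_option autoImplicit false

namespace Pool.Agent.W822.AK

open NumberField IsDedekindDomain Finset Pool.Agent.H691R3 Pool.Agent.W223.AK

variable {K : Type} [Field K] [NumberField K]

/-- Northcott count -/
lemma northcott (F : Finset K) (T : ℝ) (hT : ∀ x ∈ F, hr (aff x) ≤ T) :
    (F.card : ℝ) ≤ 32 * Real.exp (3 * lossK K) * (1 + Real.exp (2 * T)) := by
  have h := class_bound (K := K) (q := 0) (fun l => Fin.elim0 l) (fun l => Fin.elim0 l)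
    ∅ (by simp) F T (fun x _ l => Fin.elim0 l) hT (fun x _ a ha => absurd ha (Finset.notMem_empty a))
  rwa [Finset.sum_empty, sub_zero] at h

lemma log_max_one_le {a y : ℝ} (ha : 0 < a) (hy : 0 ≤ y) (h : Real.log a ≤ y) :
    Real.log (max a 1) ≤ y := by
  rcases le_total a 1 with h1 | h1
  · rw [max_eq_right h1, Real.log_one]
    exact hy
  · rwa [max_eq_left h1]

/-- the height of an `S`-unit -/
lemma ht_le (S : Finset (Pr K)) {t : K} (ht : t ≠ 0) (hS : ∀ v, v ∉ S → fv v t = 1) {Y : ℝ}
    (hY : 0 ≤ Y) (h : ∀ u ∈ Spl S, mt u * Real.log (av u t) ≤ Y) :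
    hr (aff t) ≤ (Spl S).card * Y := by
  have h1 : ∑ᶠ v : HeightOneSpectrum (𝓞 K), Real.log (max (fv v (aff t).1) (fv v (aff t).2)) =
      ∑ v ∈ S, Real.log (max (fv v t) 1) := by
    have e : ∀ v : HeightOneSpectrum (𝓞 K), Real.log (max (fv v (aff t).1) (fv v (aff t).2)) =
        Real.log (max (fv v t) 1) := by
      intro v
      unfold aff
      simp only [map_one]
    rw [finsum_congr e]
    refine finsum_eq_sum_of_support_subset _ ?_
    intro v hv
    by_contra hcon
    have hv' : v ∉ S := fun hh => hcon (Finset.mem_coe.2 hh)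
    rw [Function.mem_support, hS v hv', max_self, Real.log_one] at hv
    exact hv rfl
  have h2 : hr (aff t) = ∑ w : InfinitePlace K, (w.mult : ℝ) * Real.log (max (w t) 1) +
      ∑ v ∈ S, Real.log (max (fv v t) 1) := by
    unfold hr
    rw [h1]
    congr 1
    refine Finset.sum_congr rfl fun w _ => ?_
    unfold aff
    simp only [map_one]
  have h3 : (((Spl S).card : ℕ) : ℝ) = (Fintype.card (InfinitePlace K) : ℝ) + (S.card : ℝ) := by
    unfold Spl
    rw [Finset.card_disjSum, Finset.card_univ]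
    push_cast
    rfl
  have h4 : ∑ w : InfinitePlace K, (w.mult : ℝ) * Real.log (max (w t) 1) ≤
      Fintype.card (InfinitePlace K) * Y := by
    have : ∑ w : InfinitePlace K, (w.mult : ℝ) * Real.log (max (w t) 1) ≤
        ∑ _w : InfinitePlace K, Y := by
      refine Finset.sum_le_sum fun w _ => ?_
      have hw := h (Sum.inl w) (by unfold Spl; rw [Finset.inl_mem_disjSum]; exact Finset.mem_univ _)
      have hw' : (w.mult : ℝ) * Real.log (w t) ≤ Y := hw
      have hpos : 0 < w t := InfinitePlace.pos_iff.mpr ht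
      rcases le_total (w t) 1 with h5 | h5
      · rw [max_eq_right h5, Real.log_one, mul_zero]
        exact hY
      · rwa [max_eq_left h5]
    rwa [Finset.sum_const, Finset.card_univ, nsmul_eq_mul] at this
  have h5 : ∑ v ∈ S, Real.log (max (fv v t) 1) ≤ S.card * Y := by
    have : ∑ v ∈ S, Real.log (max (fv v t) 1) ≤ ∑ _v ∈ S, Y := by
      refine Finset.sum_le_sum fun v hv => ?_
      have hw := h (Sum.inr v) (by unfold Spl; rw [Finset.inr_mem_disjSum]; exact hv)
      have hw' : (1 : ℝ) * Real.log (fv v t) ≤ Y := hw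
      rw [one_mul] at hw'
      exact log_max_one_le ((fv v).pos ht) hY hw'
    rwa [Finset.sum_const, nsmul_eq_mul] at this
  rw [h2, h3, add_mul]
  linarith

theorem su : StmtSU K := by
  classical
  intro S ε hε
  set n : ℕ := (Spl S).card with hn
  set k : ℕ := ⌈4 * (n : ℝ) / ε⌉₊ + 1 with hkdef
  have hk : 0 < k := by omega
  have hk0 : (0 : ℝ) < k := by exact_mod_cast hk
  have hkε : 4 * (n : ℝ) / k ≤ ε := by
    rw [div_le_iff₀ hk0]
    have h1 := Nat.le_ceil (4 * (n : ℝ) / ε)
    have h2 : 4 * (n : ℝ) / ε ≤ k := by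
      rw [hkdef]
      push_cast
      linarith
    rw [div_le_iff₀ hε] at h2
    linarith
  obtain ⟨Np, cp, hcp⟩ := power_coloring (K := K) hk
  set C0 : ℝ := 32 * Real.exp (3 * lossK K) with hC0
  have hC0' : 0 < C0 := by positivity
  refine ⟨(∏ _v ∈ Spl S, (k : ℝ)) * ((Np : ℝ) * (C0 * 2)) + 1, by positivity, ?_⟩
  intro X E hX hE
  set B : ℝ := C0 * (2 * Real.exp (ε * X)) with hB
  have hB0 : 0 ≤ B := by positivity
  -- the final count
  have step3 : ∀ (L : Finset K), L ⊆ E → ∀ x1 ∈ E, ∀ (t : K → K),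
      (∀ x ∈ L, t x ^ k * x1 = x) → (L.card : ℝ) ≤ B := by
    intro L hLE x1 hx1 t ht
    have hinj : Set.InjOn t (L : Set K) := by
      intro x hx y hy hxy
      rw [← ht x (Finset.mem_coe.1 hx), ← ht y (Finset.mem_coe.1 hy), hxy]
    have hcard : (L.image t).card = L.card := Finset.card_image_of_injOn hinj
    obtain ⟨hx10, hx11, hx12⟩ := hE x1 hx1
    have hT : ∀ z ∈ L.image t, hr (aff z) ≤ n * (2 * X / k) := by
      intro z hz
      obtain ⟨x, hx, rfl⟩ := Finset.mem_image.1 hz
      obtain ⟨hx0, hxS, hxV⟩ := hE x (hLE hx)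
      have ht0 : t x ≠ 0 := by
        intro h0
        have := ht x hx
        rw [h0, zero_pow hk.ne', zero_mul] at this
        exact hx0 this.symm
      have hval : ∀ u : Pl K, av u (t x) ^ k * av u x1 = av u x := by
        intro u
        rw [← map_pow, ← map_mul, ht x hx]
      refine ht_le S ht0 ?_ (by positivity) ?_
      · intro v hv
        have h1 : fv v (t x) ^ k * fv v x1 = fv v x := hval (Sum.inr v)
        rw [hxS v hv, hx11 v hv, mul_one] at h1
        exact (pow_eq_one_iff_of_nonneg ((fv v).nonneg _) hk.ne').mp h1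
      · intro u hu
        have h1 := hval u
        have h2 : (0 : ℝ) < av u (t x) := (av u).pos ht0
        have h3 : (0 : ℝ) < av u x1 := (av u).pos hx10
        have h4 : k * Real.log (av u (t x)) + Real.log (av u x1) = Real.log (av u x) := by
          rw [← h1, Real.log_mul (pow_pos h2 k).ne' h3.ne', Real.log_pow]
        have h5 := (abs_le.1 (hxV u hu)).2
        have h6 := (abs_le.1 (hx12 u hu)).1
        rw [le_div_iff₀ hk0]
        have h7 : mt u * Real.log (av u (t x)) * k =
            mt u * Real.log (av u x) - mt u * Real.log (av u x1) := by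
          rw [← h4]; ring
        rw [h7]
        linarith
    have h1 := northcott (L.image t) _ hT
    rw [hcard] at h1
    refine h1.trans ?_
    rw [hB, hC0]
    have h2 : 2 * ((n : ℝ) * (2 * X / k)) ≤ ε * X := by
      have : 2 * ((n : ℝ) * (2 * X / k)) = 4 * (n : ℝ) / k * X := by ring
      rw [this]
      exact mul_le_mul_of_nonneg_right hkε hX
    have h3 : Real.exp (2 * ((n : ℝ) * (2 * X / k))) ≤ Real.exp (ε * X) := Real.exp_le_exp.2 h2
    have h4 : (1 : ℝ) ≤ Real.exp (ε * X) := Real.one_le_exp (by positivity)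
    have h5 : 1 + Real.exp (2 * ((n : ℝ) * (2 * X / k))) ≤ 2 * Real.exp (ε * X) := by linarith
    exact mul_le_mul_of_nonneg_left h5 (by positivity)
  -- colour modulo `k`-th powers
  have step2 : ∀ (H : Finset K), H ⊆ E → (∀ x ∈ H, ∀ y ∈ H, PowIdeal k (x / y)) →
      (H.card : ℝ) ≤ (Np : ℝ) * B := by
    intro H hHE hPow
    rcases H.eq_empty_or_nonempty with rfl | ⟨x0, hx0⟩
    · simp only [Finset.card_empty, Nat.cast_zero]
      positivity
    have hmc := multi_coloring ({0} : Finset ℕ) (fun _ => Np) (fun _ x => cp (x / x0)) B H ?_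
    · rwa [Finset.prod_singleton] at hmc
    intro L hLH hLcol
    rcases L.eq_empty_or_nonempty with rfl | ⟨x1, hx1⟩
    · simp only [Finset.card_empty, Nat.cast_zero]
      positivity
    have hx00 := (hE x0 (hHE hx0)).1
    have hx10 := (hE x1 (hHE (hLH hx1))).1
    have hroot : ∀ x : K, ∃ z : K, x ∈ L → z ^ k * x1 = x := by
      intro x
      by_cases hx : x ∈ L
      · have hxx := (hE x (hHE (hLH hx))).1
        obtain ⟨z, hz⟩ := hcp (x / x0) (x1 / x0) (div_ne_zero hxx hx00) (div_ne_zero hx10 hx00)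
          (hPow x (hLH hx) x0 hx0) (hPow x1 (hLH hx1) x0 hx0)
          (hLcol 0 (Finset.mem_singleton_self 0) x hx x1 hx1)
        refine ⟨z, fun _ => ?_⟩
        rw [← mul_div_assoc] at hz
        exact (div_left_inj' hx00).mp hz
      · exact ⟨0, fun h => absurd h hx⟩
    choose t ht using hroot
    exact step3 L (hLH.trans hHE) x1 (hHE (hLH hx1)) t ht
  -- colour by the orders at the special places
  have hordx : ∀ (v : HeightOneSpectrum (𝓞 K)) (x : K), ∃ n : ℤ, x ≠ 0 → fv v x = (Nv v) ^ n := by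
    intro v x
    by_cases h : x ≠ 0
    · obtain ⟨n, hn⟩ := fv_zpow v h
      exact ⟨n, fun _ => hn⟩
    · exact ⟨0, fun h' => absurd h' h⟩
  choose nn hnn using hordx
  have hkz : (0 : ℤ) < k := by exact_mod_cast hk
  set c1 : Pl K → K → Fin k := fun v x =>
    Sum.elim (fun _ : InfinitePlace K => ⟨0, hk⟩)
      (fun v : HeightOneSpectrum (𝓞 K) => ⟨(nn v x % k).toNat, by
        have h1 := Int.emod_nonneg (nn v x) hkz.ne'
        have h2 := Int.emod_lt_of_pos (nn v x) hkz
        omega⟩) v with hc1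
  have step1 := multi_coloring (Spl S) (fun _ => k) c1 ((Np : ℝ) * B) E ?_
  · refine step1.trans ?_
    rw [hB]
    have h1 : 0 ≤ Real.exp (ε * X) := (Real.exp_pos _).le
    nlinarith
  · intro L hLE hLcol
    refine step2 L hLE ?_
    intro x hx y hy v
    obtain ⟨hx0, hxS, hxV⟩ := hE x (hLE hx)
    obtain ⟨hy0, hyS, hyV⟩ := hE y (hLE hy)
    by_cases hv : v ∈ S
    · have h1 := hLcol (Sum.inr v) (by unfold Spl; rw [Finset.inr_mem_disjSum]; exact hv)
        x hx y hy
      rw [hc1] at h1
      simp only [Sum.elim_inr, Fin.mk.injEq] at h1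
      have h2 := Int.emod_nonneg (nn v x) hkz.ne'
      have h3 := Int.emod_nonneg (nn v y) hkz.ne'
      have h4 : nn v x % k = nn v y % k := by omega
      have h5 : (k : ℤ) ∣ nn v x - nn v y := (Int.emod_emod_of_dvd _ (dvd_refl _) ▸
        Int.emod_eq_emod_iff_emod_sub_eq_zero.mp h4 |> Int.dvd_of_emod_eq_zero)
      obtain ⟨m, hm⟩ := h5
      refine ⟨m, ?_⟩
      rw [map_div₀, hnn v x hx0, hnn v y hy0, ← hm,
        zpow_sub₀ (by linarith [two_le_Nv v] : Nv v ≠ 0)]
    · refine ⟨0, ?_⟩
      rw [map_div₀, hxS v hv, hyS v hv, div_one, mul_zero, zpow_zero]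

end Pool.Agent.W822.AK
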